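import Pool.Agent.N659.HB.AllN

set_option autoImplicit false

/-!
# Every disorder strength: absolutely continuous spectrum after a change of the kinetic energy

`d ≥ 1`, any law of the disorder which is not a point mass (for instance the uniform law on
`[-c, c]`, every `c > 0`; no smallness of the disorder), any interval `(a, b)`, `1 < p < 2`,
`0 ≤ g < d / 3`, `ε > 0`: there is a bounded continuous function `f` such that the symbol of `f(-Δ)`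
has `L^p` norm at most `ε ^ (1 / p)`, its hopping amplitudes are at most `ε / (1 + |x|) ^ g`, and
`-Δ + f(-Δ) + ω` has almost surely purely absolutely continuous spectrum filling `(a, b)`.
-/

namespace Pool.Agent.Results.MP_562b47_mp.EveryDisorderAC

open MeasureTheory

noncomputable section

/-- The hopping amplitudes of `b(-Δ)` on `ℤ^d`: the Fourier coefficients of the symbol
`b(∑ i (2 - 2 cos (2 π k_i)))`. -/
def hopping (b : ℝ → ℝ) (d : ℕ) (x : Fin d → ℤ) : ℂ :=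
  UnitAddTorus.mFourierCoeff
    (fun k : UnitAddTorus (Fin d) => ((b (∑ i, (2 - 2 * (fourier 1 (k i)).re)) : ℝ) : ℂ)) x

/-- `(-Δ + b(-Δ) + ω) u (x)`. -/
def H (b : ℝ → ℝ) {d : ℕ} (ω : (Fin d → ℤ) → ℝ) (u : (Fin d → ℤ) → ℂ)
    (x : Fin d → ℤ) : ℂ :=
  (∑ i : Fin d, (2 * u x - u (x + Pi.single i 1) - u (x - Pi.single i 1)))
    + (∑' y, hopping b d (x - y) * u y) + ((ω x : ℝ) : ℂ) * u x

/-- `u` is square summable and `(H - z) u = δ_x`, i.e. `u = (H - z)⁻¹ δ_x`. -/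
def IsGreen (b : ℝ → ℝ) {d : ℕ} (ω : (Fin d → ℤ) → ℝ) (z : ℂ) (x : Fin d → ℤ)
    (u : (Fin d → ℤ) → ℂ) : Prop :=
  Summable (fun y => ‖u y‖ ^ 2) ∧ ∀ y, H b ω u y - z * u y = if y = x then 1 else 0

/-- Purely absolutely continuous spectrum filling the interval `(a₁, a₂)`: for every site `x` the
spectral measure `μ` of `δ_x`, i.e. the finite measure with
`⟨δ_x, (H - z)⁻¹ δ_x⟩ = ∫ dμ(E) / (E - z)`, has on `(a₁, a₂)` a density `h`, positive almost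
everywhere there. -/
def ACOn (b : ℝ → ℝ) {d : ℕ} (ω : (Fin d → ℤ) → ℝ) (a₁ a₂ : ℝ) : Prop :=
  ∀ x : Fin d → ℤ, ∃ (μ : Measure ℝ) (h : ℝ → ℝ), IsFiniteMeasure μ ∧
    (∀ z : ℂ, 0 < z.im → (∃ u, IsGreen b ω z x u) ∧
      ∀ u, IsGreen b ω z x u → u x = ∫ E : ℝ, 1 / ((E : ℂ) - z) ∂μ) ∧
    Measurable h ∧ (∀ᵐ E ∂(volume.restrict (Set.Ioo a₁ a₂)), 0 < h E) ∧
    μ.restrict (Set.Ioo a₁ a₂)
      = (volume.restrict (Set.Ioo a₁ a₂)).withDensity fun E => ENNReal.ofReal (h E)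

theorem ac_of {b : ℝ → ℝ} {d : ℕ} (B : C(UnitAddTorus (Fin d), ℝ))
    (hB : ∀ k, B k = b (W792.LL.lap d k)) {ω : (Fin d → ℤ) → ℝ} {a₁ a₂ : ℝ}
    (h : W792.WA.ACIK (W792.LL.lap d + B) 1 ω a₁ a₂) : ACOn b ω a₁ a₂ := by
  intro x
  obtain ⟨μ, g, h1, h2, h3, h4, h5⟩ := h x
  have e0 : (fun k : UnitAddTorus (Fin d) => ((B k : ℝ) : ℂ))
      = fun k => ((b (∑ i, (2 - 2 * (fourier 1 (k i)).re)) : ℝ) : ℂ) := by
    funext k
    rw [hB]
    rfl
  refine ⟨μ, g, h1, fun z hz => ?_, h3, h4, h5⟩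
  have e : ∀ u, W792.LL.Sol (W792.LL.hopK (W792.LL.lap d + B)) 1 ω z x u
      ↔ IsGreen b ω z x u := by
    intro u
    rw [W792.WA.Br.sol_iff B 1 ω z x u, e0]
    unfold IsGreen H hopping
    simp only [one_mul]
  obtain ⟨⟨w, hw⟩, h6⟩ := h2 z hz
  exact ⟨⟨w, (e w).1 hw⟩, fun u hu => h6 u ((e u).2 hu)⟩

/-- Let `d ≥ 1`, let `ν` be a probability law which is not a point mass, `a < b`, `1 < p < 2`,
`0 ≤ g < d / 3` and `ε > 0`. There is a bounded continuous function `f` with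
`∫ |f(2 d - ∑ 2 cos (2 π k_i))| ^ p dk ≤ ε` and hopping amplitudes at most `ε / (1 + |x|) ^ g`,
`|x| = max |x_i|`, for which the spectrum of `-Δ + f(-Δ) + ω`, `ω` i.i.d. with law `ν`, in `(a, b)`
is almost surely purely absolutely continuous, and it fills this interval. -/
theorem result (d : ℕ) (hd : 0 < d) (ν : Measure ℝ) [IsProbabilityMeasure ν]
    (hν : ∀ x : ℝ, ν {x} < 1) (a b : ℝ) (hab : a < b) (p : ℝ) (hp1 : 1 < p) (hp2 : p < 2)
    (g : ℝ) (hg0 : 0 ≤ g) (hg1 : g < (d : ℝ) / 3) (ε : ℝ) (hε : 0 < ε) :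
    ∃ f : ℝ → ℝ, Continuous f ∧ (∃ B : ℝ, ∀ t, |f t| ≤ B) ∧
      (∫ k : UnitAddTorus (Fin d), |f (∑ i, (2 - 2 * (fourier 1 (k i)).re))| ^ p) ≤ ε ∧
      (∀ x : Fin d → ℤ, ‖hopping f d x‖ ≤ ε / (1 + ‖x‖) ^ g) ∧
      ∀ᵐ ω ∂(Measure.infinitePi fun _ : Fin d → ℤ => ν), ACOn f ω a b := by
  obtain ⟨f, h1, h2, h3, h4⟩ := N659.HB.Al.npT ν d a b p g ε hν hd hab hp1 hp2 hg0 hg1 hε
  refine ⟨f, f.continuous, h1, h2, h3, ?_⟩
  change ∀ᵐ ω ∂(W792.WA.Pn ν (Fin d → ℤ)), _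
  filter_upwards [h4] with v hv
  exact ac_of (W792.WA.gK f d) (fun k => rfl) hv

end

end Pool.Agent.Results.MP_562b47_mp.EveryDisorderAC
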