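import Pool.Agent.R988.NQ.WF
import Pool.Agent.R988.NQ.QAll
import Pool.Agent.R988.NQ.Mom2
import Pool.Agent.H5R2.NB.FIN
import Pool.Agent.H5R2.NB.GEN

/-!
# No ballistic transport in the Anderson model with a bounded density, for every disorder

`Δ_ω = -Δ + ω` on `ℓ²(ℤ^d)`, `d` arbitrary, `ω_j` iid with any law which has a bounded density, for
instance uniform on `[-c, c]`, with arbitrarily small `c > 0`. For almost every `ω` **every** state
`u` in `ℓ²` (in the absolutely continuous, singular continuous or pure point subspace) has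
asymptotic velocity zero: the time average over `[0, T]` of `e^{isΔ_ω} v e^{-isΔ_ω} u` tends to zero
in `ℓ²`, the position divided by the time tends to zero in probability in the state
`e^{-itΔ_ω} u`, and the second moment is `o(t²)` if it is finite at time zero. The mean of the second
moment is also `o(t²)`.
-/

set_option autoImplicit false

open MeasureTheory Filter Topology
open scoped BigOperators ENNReal NNReal InnerProductSpace

namespace Pool.Agent.Results.MP_562b47_mp.NoBallisticTransport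

/-- `ℓ²(ℤ^d)` -/
abbrev L2 (d : ℕ) : Type := lp (fun _ : Fin d → ℤ => ℂ) 2

/-- the operator of the problem, `(Δ_ω u)(j) = -∑_{|n|=1} (u(j+n) - u(j)) + ω_j u(j)` (the unit
vectors `n` are `± e_i`) -/
noncomputable def H {d : ℕ} (ω : (Fin d → ℤ) → ℝ) (u : (Fin d → ℤ) → ℂ) (j : Fin d → ℤ) : ℂ :=
  -(∑ i : Fin d, ((u (j + Pi.single i 1) - u j) + (u (j - Pi.single i 1) - u j))) + (ω j : ℂ) * u j

/-- `U t = e^{-itΔ_ω}`: norm preserving maps of `ℓ²(ℤ^d)` with `U 0 = 1` and
`i ∂_t (U_t u) = Δ_ω U_t u` at every site -/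
structure IsPropagator {d : ℕ} (ω : (Fin d → ℤ) → ℝ) (U : ℝ → L2 d → L2 d) : Prop where
  zero : ∀ u, U 0 u = u
  norm : ∀ t u, ‖U t u‖ = ‖u‖
  schrodinger : ∀ u t j, HasDerivAt (fun s => (U s u) j)
    (-Complex.I * H ω (fun k => (U t u) k) j) t

/-- `v` is the velocity operator `i[Δ_ω, x_i]`, `(v u)(j) = -i (u(j+e_i) - u(j-e_i))` -/
def IsVelocity {d : ℕ} (i : Fin d) (v : L2 d → L2 d) : Prop :=
  ∀ u j, (v u) j = -Complex.I * (u (j + Pi.single i 1) - u (j - Pi.single i 1))

/-- the second moment `∑_x |x|² |u(x)|²` of the position in the state `u` -/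
noncomputable def secondMoment {d : ℕ} (u : L2 d) : ℝ≥0∞ :=
  ∑' x : Fin d → ℤ, ENNReal.ofReal (∑ i : Fin d, (x i : ℝ) ^ 2) * ‖u x‖ₑ ^ 2

/-- the probability `∑_{|x| ≥ r} |u(x)|²` that the position has (maximum) norm at least `r` in the
state `u` -/
noncomputable def massOutside {d : ℕ} (r : ℝ) (u : L2 d) : ℝ≥0∞ :=
  ∑' x : Fin d → ℤ, {y : Fin d → ℤ | r ≤ ‖y‖}.indicator (fun y => ‖u y‖ₑ ^ 2) x

/-- the law of iid variables with law `μ` on `ℤ^d` -/
noncomputable def iid (d : ℕ) (μ : Measure ℝ) : Measure ((Fin d → ℤ) → ℝ) :=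
  Measure.infinitePi fun _ => μ

/-- the uniform law on `[-c, c]` -/
noncomputable def uniform (c : ℝ) : Measure ℝ :=
  ENNReal.ofReal (2 * c)⁻¹ • volume.restrict (Set.Icc (-c) c)

/-- `δ_0` -/
noncomputable def delta0 (d : ℕ) : L2 d := lp.single (E := fun _ : Fin d → ℤ => ℂ) 2 0 (1 : ℂ)

/-- the time average over `[0,T]` of the velocity at time `s`, `U_{-s} v U_s`, applied to `u` -/
noncomputable def average {d : ℕ} (U : ℝ → L2 d → L2 d) (v : L2 d → L2 d) (T : ℝ)
    (u : L2 d) : L2 d :=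
  ((T : ℂ)⁻¹) • ∫ s in (0 : ℝ)..T, U (-s) (v (U s u))

open Pool.Agent.H5R2.NB

theorem sol_of_prop {d : ℕ} {ω : (Fin d → ℤ) → ℝ} {U : ℝ → L2 d → L2 d}
    (hU : IsPropagator ω U) (u : L2 d) :
    IsSol (-1) (fun x => 2 * d + 1 * ω x) (fun t => U t u) (fun _ => 0) := by
  refine ⟨fun T => ⟨‖u‖, fun t _ => (hU.norm t u).le⟩, fun t x => ?_⟩
  have h := hU.schrodinger u t x
  have e := FIN.hop_eq ω (fun k => (U t u) k) x
  have e2 : -Complex.I * (hopf (-1) (fun y => (U t u) y) x +
      (((fun x => 2 * d + 1 * ω x) x : ℝ) : ℂ) * (U t u) x) + ((0 : L2 d) : (Fin d → ℤ) → ℂ) x =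
      -Complex.I * H ω (fun k => (U t u) k) x := by
    have e3 : H ω (fun k => (U t u) k) x = -(∑ i : Fin d,
        (((U t u) (x + Pi.single i 1) - (U t u) x) + ((U t u) (x - Pi.single i 1) - (U t u) x))) +
        (ω x : ℂ) * (U t u) x := rfl
    rw [e3, ← e]
    simp
  rw [e2]
  exact h

theorem prop_of_grp {d : ℕ} {ω : (Fin d → ℤ) → ℝ} {W : UG (Pool.Agent.H5R2.NB.L2 (Site d))}
    (hW : IsGrp (-1) (fun x => 2 * d + 1 * ω x) W) : IsPropagator ω (fun t u => W.U t u) := by
  refine ⟨W.zero', W.norm', fun u t x => ?_⟩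
  have h := (hW u).2 t x
  have e := FIN.hop_eq ω (fun k => (W.U t u) k) x
  have e3 : H ω (fun k => (W.U t u) k) x = -(∑ i : Fin d,
        (((W.U t u) (x + Pi.single i 1) - (W.U t u) x) +
          ((W.U t u) (x - Pi.single i 1) - (W.U t u) x))) + (ω x : ℂ) * (W.U t u) x := rfl
  rw [e3, ← e]
  simpa using h

theorem prop_eq {d : ℕ} {ω : (Fin d → ℤ) → ℝ} {W : UG (Pool.Agent.H5R2.NB.L2 (Site d))}
    (hW : IsGrp (-1) (fun x => 2 * d + 1 * ω x) W) {U : ℝ → L2 d → L2 d}
    (hU : IsPropagator ω U) (t : ℝ) (u : L2 d) : U t u = W.U t u := by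
  have h := Pool.Agent.H5R2.NB.ALL.a_UN d (-1) _ W hW (fun t => U t u) (fun _ => 0)
    continuous_const (sol_of_prop hU u) t
  simpa [hU.zero u] using h

theorem second_eq {d : ℕ} (u : L2 d) :
    secondMoment u = ∑ j : Fin d, Pool.Agent.R988.NQ.m2 j u := by
  unfold secondMoment Pool.Agent.R988.NQ.m2
  have e2 : ∀ x : Site d, ENNReal.ofReal (∑ i : Fin d, (x i : ℝ) ^ 2) *
      ‖u x‖ₑ ^ 2 = ∑ j : Fin d, ENNReal.ofReal ((x j : ℝ) ^ 2) * ‖u x‖ₑ ^ 2 := by
    intro x
    rw [ENNReal.ofReal_sum_of_nonneg (fun i _ => sq_nonneg _), Finset.sum_mul]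
  simp_rw [e2]
  rw [Summable.tsum_finsetSum (fun i _ => ENNReal.summable)]

theorem tendsto_aux {a : ℝ≥0∞} (ha : a ≠ ∞) {g : ℝ → ℝ≥0∞}
    (hg : Tendsto (fun t : ℝ => g t / ENNReal.ofReal (t ^ 2)) atTop (𝓝 0)) :
    Tendsto (fun t : ℝ => (2 * a + 2 * g t) / ENNReal.ofReal (t ^ 2)) atTop (𝓝 0) := by
  have h1 : Tendsto (fun t : ℝ => 2 * a / ENNReal.ofReal (t ^ 2)) atTop (𝓝 0) := by
    have hp : Tendsto (fun t : ℝ => ENNReal.ofReal (t ^ 2)) atTop (𝓝 ∞) :=
      ENNReal.tendsto_ofReal_atTop.comp (tendsto_pow_atTop (by norm_num))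
    have h2a : 2 * a ≠ ∞ := ENNReal.mul_ne_top (by norm_num) ha
    have := ENNReal.Tendsto.const_div (a := 2 * a) hp (Or.inr h2a)
    simpa using this
  have h2 := ENNReal.Tendsto.const_mul (a := 2) hg (Or.inr (by norm_num))
  have h3 := h1.add h2
  simp only [mul_zero, add_zero] at h3
  refine h3.congr fun t => ?_
  rw [ENNReal.add_div, mul_div_assoc (2 : ℝ≥0∞) (g t)]

/-! ### The mass far away -/

theorem mass_add {d : ℕ} (r : ℝ) (a b : L2 d) :
    massOutside r (a + b) ≤ 2 * massOutside r a + 2 * massOutside r b := by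
  unfold massOutside
  rw [← ENNReal.tsum_mul_left, ← ENNReal.tsum_mul_left, ← ENNReal.tsum_add]
  refine ENNReal.tsum_le_tsum fun x => ?_
  by_cases hx : x ∈ {y : Fin d → ℤ | r ≤ ‖y‖}
  · rw [Set.indicator_of_mem hx, Set.indicator_of_mem hx, Set.indicator_of_mem hx]
    refine le_trans ?_ (Pool.Agent.R988.NQ.sq_add_le _ _)
    gcongr
    exact enorm_add_le _ _
  · rw [Set.indicator_of_notMem hx]
    exact bot_le

theorem tsum_sq {d : ℕ} (u : L2 d) : ∑' x, ‖u x‖ₑ ^ 2 = ENNReal.ofReal (‖u‖ ^ 2) := by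
  have h := Pool.Agent.H5R2.NB.GEN.hasSum_sq (d := d) u
  rw [← h.tsum_eq, ENNReal.ofReal_tsum_of_nonneg (fun x => sq_nonneg _) h.summable]
  refine tsum_congr fun x => ?_
  rw [ENNReal.ofReal_pow (norm_nonneg _), ofReal_norm]

theorem mass_le_norm {d : ℕ} (r : ℝ) (u : L2 d) :
    massOutside r u ≤ ENNReal.ofReal (‖u‖ ^ 2) := by
  rw [← tsum_sq]
  unfold massOutside
  refine ENNReal.tsum_le_tsum fun x => ?_
  exact Set.indicator_le_self _ _ x

theorem norm_sq_le {d : ℕ} (x : Fin d → ℤ) : ‖x‖ ^ 2 ≤ ∑ i, (x i : ℝ) ^ 2 := by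
  have h : ‖x‖ ≤ Real.sqrt (∑ i, (x i : ℝ) ^ 2) := by
    refine (pi_norm_le_iff_of_nonneg (Real.sqrt_nonneg _)).2 fun i => ?_
    refine Real.le_sqrt_of_sq_le ?_
    have e : ‖x i‖ ^ 2 = (x i : ℝ) ^ 2 := by
      rw [Int.norm_eq_abs, sq_abs]
    rw [e]
    exact Finset.single_le_sum (f := fun i => (x i : ℝ) ^ 2) (fun _ _ => sq_nonneg _)
      (Finset.mem_univ i)
  calc ‖x‖ ^ 2 ≤ (Real.sqrt (∑ i, (x i : ℝ) ^ 2)) ^ 2 := by
        gcongr
    _ = _ := Real.sq_sqrt (Finset.sum_nonneg fun _ _ => sq_nonneg _)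

theorem mass_le_second {d : ℕ} {r : ℝ} (hr : 0 < r) (u : L2 d) :
    massOutside r u ≤ secondMoment u / ENNReal.ofReal (r ^ 2) := by
  have hr2 : ENNReal.ofReal (r ^ 2) ≠ 0 := by
    rw [Ne, ENNReal.ofReal_eq_zero, not_le]
    positivity
  rw [ENNReal.le_div_iff_mul_le (Or.inl hr2) (Or.inl ENNReal.ofReal_ne_top)]
  unfold massOutside secondMoment
  rw [← ENNReal.tsum_mul_right]
  refine ENNReal.tsum_le_tsum fun x => ?_
  by_cases hx : x ∈ {y : Fin d → ℤ | r ≤ ‖y‖}
  · rw [Set.indicator_of_mem hx, mul_comm]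
    gcongr
    have h1 : r ≤ ‖x‖ := hx
    exact (pow_le_pow_left₀ hr.le h1 2).trans (norm_sq_le x)
  · rw [Set.indicator_of_notMem hx, zero_mul]
    exact bot_le

theorem second_finite {d : ℕ} (s : Finset (Fin d → ℤ)) (u : L2 d) :
    secondMoment (∑ i ∈ s, lp.single (E := fun _ : Fin d → ℤ => ℂ) 2 i (u i)) ≠ ∞ := by
  unfold secondMoment
  have h0 : ∀ x ∉ s, (∑ i ∈ s, lp.single (E := fun _ : Fin d → ℤ => ℂ) 2 i (u i) : L2 d) x = 0 := by
    intro x hx
    rw [lp.coeFn_sum, Finset.sum_apply]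
    refine Finset.sum_eq_zero fun i hi => ?_
    rw [lp.single_apply, Pi.single_apply]
    rw [if_neg]
    rintro rfl
    exact hx hi
  rw [tsum_eq_sum (s := s)]
  · refine ENNReal.sum_ne_top.2 fun x _ => ?_
    exact ENNReal.mul_ne_top ENNReal.ofReal_ne_top (ENNReal.pow_ne_top enorm_ne_top)
  · intro x hx
    rw [h0 x hx]
    simp

theorem mass_tendsto {d : ℕ} (W : UG (Pool.Agent.H5R2.NB.L2 (Site d)))
    (h : ∀ u : L2 d, secondMoment u ≠ ∞ →
      Tendsto (fun t : ℝ => secondMoment (W.U t u) / ENNReal.ofReal (t ^ 2)) atTop (𝓝 0))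
    (u : L2 d) {ε : ℝ} (hε : 0 < ε) :
    Tendsto (fun t : ℝ => massOutside (ε * t) (W.U t u)) atTop (𝓝 0) := by
  have hs := lp.hasSum_single (E := fun _ : Fin d → ℤ => ℂ) (p := 2) (by norm_num) u
  rw [ENNReal.tendsto_nhds_zero]
  intro η hη
  -- a good approximation
  have hη' : ∃ δ : ℝ, 0 < δ ∧ 2 * ENNReal.ofReal (δ ^ 2) ≤ η / 2 := by
    by_cases htop : η = ∞
    · refine ⟨1, one_pos, ?_⟩
      rw [htop, ENNReal.top_div_of_ne_top (by norm_num)]
      exact le_top
    · have h1 : 0 < η.toReal := ENNReal.toReal_pos hη.ne' htop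
      refine ⟨Real.sqrt (η.toReal / 4), Real.sqrt_pos.2 (by positivity), ?_⟩
      rw [Real.sq_sqrt (by positivity), ← ENNReal.ofReal_toReal htop]
      have e1 : (2 : ℝ≥0∞) = ENNReal.ofReal 2 := by norm_num
      rw [e1, ← ENNReal.ofReal_mul (by norm_num), ← ENNReal.ofReal_div_of_pos (by norm_num),
        ENNReal.toReal_ofReal h1.le]
      refine ENNReal.ofReal_le_ofReal ?_
      linarith
  obtain ⟨δ, hδ, hδη⟩ := hη'
  have h2 := (Metric.tendsto_nhds.1 hs) δ hδ
  obtain ⟨s, hs2⟩ := h2.exists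
  set u' : L2 d := ∑ i ∈ s, lp.single (E := fun _ : Fin d → ℤ => ℂ) 2 i (u i) with hu'
  have hnorm : ‖u - u'‖ ≤ δ := by
    rw [← dist_eq_norm, dist_comm]
    exact hs2.le
  have h3 : Tendsto (fun t : ℝ => 2 * ((secondMoment (W.U t u') / ENNReal.ofReal (t ^ 2)) /
      ENNReal.ofReal (ε ^ 2))) atTop (𝓝 0) := by
    have h4 := h u' (second_finite s u)
    have hε2 : ENNReal.ofReal (ε ^ 2) ≠ 0 := by
      rw [Ne, ENNReal.ofReal_eq_zero, not_le]
      positivity
    have h5 := ENNReal.Tendsto.div_const h4 (b := ENNReal.ofReal (ε ^ 2)) (Or.inr hε2)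
    have h6 := ENNReal.Tendsto.const_mul (a := 2) h5 (Or.inr (by norm_num))
    simpa using h6
  have h7 := (ENNReal.tendsto_nhds_zero.1 h3) (η / 2) (ENNReal.half_pos hη.ne')
  filter_upwards [h7, eventually_gt_atTop (0 : ℝ)] with t ht ht0
  have e : W.U t u = W.U t u' + W.U t (u - u') := by
    rw [← map_add]
    congr 1
    abel
  rw [e]
  refine (mass_add _ _ _).trans ?_
  have h8 : 2 * massOutside (ε * t) (W.U t u') ≤ η / 2 := by
    refine le_trans ?_ ht
    gcongr
    refine (mass_le_second (mul_pos hε ht0) _).trans ?_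
    rw [ENNReal.div_eq_inv_mul, ENNReal.div_eq_inv_mul, ENNReal.div_eq_inv_mul, ← mul_assoc,
      mul_pow, ENNReal.ofReal_mul (by positivity), ENNReal.mul_inv]
    · right; exact ENNReal.ofReal_ne_top
    · left; exact ENNReal.ofReal_ne_top
  have h9 : 2 * massOutside (ε * t) (W.U t (u - u')) ≤ η / 2 := by
    refine le_trans ?_ hδη
    gcongr
    refine (mass_le_norm _ _).trans ?_
    refine ENNReal.ofReal_le_ofReal ?_
    rw [W.norm']
    gcongr
  calc 2 * massOutside (ε * t) (W.U t u') + 2 * massOutside (ε * t) (W.U t (u - u'))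
      ≤ η / 2 + η / 2 := add_le_add h8 h9
    _ = η := ENNReal.add_halves η

/-- **No ballistic transport.** Let `μ` be a law on `ℝ` with a bounded density. The unitary group
`e^{-itΔ_ω}` exists and is unique for every `ω`. For almost every `ω` (iid with law `μ`),

(a) for every direction and for every `u` in `ℓ²` the time average over `[0,T]` of
`e^{isΔ_ω} v e^{-isΔ_ω} u` tends to zero in `ℓ²` as `T → ∞` (`v` is the velocity operator),

(b) for every `u` in `ℓ²` and every `ε > 0` the mass of `e^{-itΔ_ω} u` outside of the ball of radius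
`ε t` tends to zero as `t → ∞`,

(c) for every `u` with finite second moment the second moment of `e^{-itΔ_ω} u` is `o(t²)`.

(d) The mean of the second moment of `e^{-itΔ_ω} δ_0` is `o(t²)`.

The uniform law on `[-c, c]` is a probability measure with bounded density for every `c > 0`. -/
theorem result :
    (∀ (d : ℕ) (μ : Measure ℝ) [IsProbabilityMeasure μ], (∃ C : ℝ≥0, μ ≤ C • volume) →
      (∀ ω : (Fin d → ℤ) → ℝ, ∃! U : ℝ → L2 d → L2 d, IsPropagator ω U) ∧
      ∀ U : ((Fin d → ℤ) → ℝ) → ℝ → L2 d → L2 d, (∀ ω, IsPropagator ω (U ω)) →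
        (∀ᵐ ω ∂(iid d μ),
          (∀ i : Fin d, ∃ v : L2 d → L2 d, IsVelocity i v ∧
            ∀ u : L2 d, Tendsto (fun T : ℝ => average (U ω) v T u) atTop (𝓝 0)) ∧
          (∀ (u : L2 d) (ε : ℝ), 0 < ε →
            Tendsto (fun t : ℝ => massOutside (ε * t) (U ω t u)) atTop (𝓝 0)) ∧
          (∀ u : L2 d, secondMoment u ≠ ∞ →
            Tendsto (fun t : ℝ => secondMoment (U ω t u) / ENNReal.ofReal (t ^ 2)) atTop (𝓝 0))) ∧
        Tendsto (fun t : ℝ => (∫⁻ ω, secondMoment (U ω t (delta0 d)) ∂(iid d μ)) /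
          ENNReal.ofReal (t ^ 2)) atTop (𝓝 0)) ∧
    ∀ c : ℝ, 0 < c → IsProbabilityMeasure (uniform c) ∧ ∃ C : ℝ≥0, uniform c ≤ C • volume := by
  refine ⟨?_, ?_⟩
  · rintro d μ hμp ⟨C, hμ⟩
    refine ⟨fun ω => ?_, fun U hU => ?_⟩
    · obtain ⟨W, hW⟩ := Pool.Agent.H5R2.NB.ALL.a_EX d (-1) (fun x => 2 * d + 1 * ω x)
      refine ⟨fun t u => W.U t u, prop_of_grp hW, fun U hU => ?_⟩
      funext t u
      exact prop_eq hW hU t u
    choose ev hev using fun V : Site d → ℝ => Pool.Agent.H5R2.NB.ALL.a_EX d (-1) V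
    choose v hv using fun i : Fin d => (t_OPS d).2.2 (-1 : ℝ) i
    have hg : Measurable (fun r : ℝ => 2 * (d : ℝ) + 1 * r) := by fun_prop
    have hpm : IsProbabilityMeasure (μ.map fun r : ℝ => 2 * (d : ℝ) + 1 * r) :=
      Measure.isProbabilityMeasure_map hg.aemeasurable
    have hC : (μ.map fun r : ℝ => 2 * (d : ℝ) + 1 * r) ≤ C • volume := by
      have h1 : (μ.map fun r : ℝ => 2 * (d : ℝ) + 1 * r) ≤
          (C • volume : Measure ℝ).map fun r : ℝ => 2 * (d : ℝ) + 1 * r :=
        Measure.map_mono hμ hg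
      refine h1.trans ?_
      have h2 : (volume : Measure ℝ).map (fun r : ℝ => 2 * (d : ℝ) + 1 * r) = volume := by
        have : (fun r : ℝ => 2 * (d : ℝ) + 1 * r) = fun r => 2 * (d : ℝ) + r := by
          funext r; ring
        rw [this]
        exact (measurePreserving_add_left volume (2 * (d : ℝ))).map_eq
      have h3 : (C • volume : Measure ℝ).map (fun r : ℝ => 2 * (d : ℝ) + 1 * r) =
          C • volume := by
        rw [Measure.map_smul, h2]
      rw [h3]
    have hmap : (iid d μ).map (fun (ω : Site d → ℝ) (x : Site d) => 2 * (d : ℝ) + 1 * ω x) =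
        PP d (μ.map fun r : ℝ => 2 * (d : ℝ) + 1 * r) := by
      unfold PP iid
      exact Measure.infinitePi_map_pi (μ := fun _ : Site d => μ) (fun _ => hg)
    have hgm : Measurable (fun (ω : Site d → ℝ) (x : Site d) => 2 * (d : ℝ) + 1 * ω x) :=
      measurable_pi_iff.2 fun x => hg.comp (measurable_pi_apply x)
    have hUe : ∀ ω t u, U ω t u = (ev fun x => 2 * (d : ℝ) + 1 * ω x).U t u := by
      intro ω t u
      exact prop_eq (hev _) (hU ω) t u
    refine ⟨?_, ?_⟩
    · have hall : ∀ᵐ V ∂(PP d (μ.map fun r : ℝ => 2 * (d : ℝ) + 1 * r)), ∀ i : Fin d,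
          ∃ B : Pool.Agent.H5R2.NB.L2 (Site d) →L[ℂ] Pool.Agent.H5R2.NB.L2 (Site d),
          (∀ x, Tendsto (fun N : ℕ => avP (ev V) (v i) N x) atTop (𝓝 (B x))) ∧
          (∀ x, Tendsto (fun t : ℝ => t⁻¹ *
            ‖∫ s in (0 : ℝ)..t, (ev V).U (-s) (v i ((ev V).U s x))‖) atTop (𝓝 0)) := by
        rw [ae_all_iff]
        intro i
        filter_upwards [Pool.Agent.R988.NQ.asymptotic (ν := μ.map fun r : ℝ => 2 * (d : ℝ) + 1 * r)
          hev (hv i), Pool.Agent.R988.NQ.velocity_zero hev hC (hv i)] with V h1 h2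
        obtain ⟨B, hB, -⟩ := h1
        exact ⟨B, hB, h2⟩
      rw [← hmap] at hall
      have hall2 := ae_of_ae_map hgm.aemeasurable hall
      filter_upwards [hall2] with ω hω
      choose B hB hB0 using hω
      have hBz : ∀ i u, B i u = 0 := by
        intro i u
        have h1 := Pool.Agent.R988.NQ.real_times' (ev fun x => 2 * (d : ℝ) + 1 * ω x) (v i) u
          (B i u) (hB i u)
        have h2 := h1.norm
        have h3 : Tendsto (fun t : ℝ => ‖((t : ℂ)⁻¹) • ∫ s in (0 : ℝ)..t,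
            (ev fun x => 2 * (d : ℝ) + 1 * ω x).U (-s)
              (v i ((ev fun x => 2 * (d : ℝ) + 1 * ω x).U s u))‖) atTop (𝓝 0) := by
          refine (hB0 i u).congr' ?_
          filter_upwards [eventually_gt_atTop (0 : ℝ)] with t ht
          rw [norm_smul, norm_inv, Complex.norm_real, Real.norm_of_nonneg ht.le]
        have h4 := tendsto_nhds_unique h2 h3
        exact norm_eq_zero.1 h4
      have havg : ∀ (i : Fin d) (u : L2 d),
          Tendsto (fun T : ℝ => average (U ω) (fun u => v i u) T u) atTop (𝓝 0) := by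
        intro i u
        have h := Pool.Agent.R988.NQ.real_times' (ev fun x => 2 * (d : ℝ) + 1 * ω x) (v i) u (B i u)
          (hB i u)
        rw [hBz i u] at h
        refine h.congr fun T => ?_
        unfold average
        congr 1
        refine intervalIntegral.integral_congr fun s _ => ?_
        show _ = U ω (-s) (v i (U ω s u))
        rw [hUe, hUe]
      have hmom : ∀ u : L2 d, secondMoment u ≠ ∞ →
          Tendsto (fun t : ℝ => secondMoment (U ω t u) / ENNReal.ofReal (t ^ 2)) atTop (𝓝 0) := by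
        intro u hm
        have hterm : ∀ j : Fin d, Tendsto (fun t : ℝ =>
            Pool.Agent.R988.NQ.m2 j (U ω t u) / ENNReal.ofReal (t ^ 2)) atTop (𝓝 0) := by
          intro j
          have hfin : Pool.Agent.R988.NQ.m2 j u ≠ ∞ := by
            rw [second_eq] at hm
            exact ne_top_of_le_ne_top hm
              (Finset.single_le_sum (f := fun j => Pool.Agent.R988.NQ.m2 j u)
                (fun _ _ => bot_le) (Finset.mem_univ j))
          have h1 : Tendsto (fun t : ℝ => ‖∫ s in (0 : ℝ)..t,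
              (ev fun x => 2 * (d : ℝ) + 1 * ω x).U (-s)
                (v j ((ev fun x => 2 * (d : ℝ) + 1 * ω x).U s u))‖ₑ ^ 2 /
                ENNReal.ofReal (t ^ 2)) atTop (𝓝 0) := by
            have h3 := (hB0 j u).pow 2
            rw [zero_pow (two_ne_zero)] at h3
            have h2 := (ENNReal.continuous_ofReal.tendsto 0).comp h3
            rw [ENNReal.ofReal_zero] at h2
            refine h2.congr' ?_
            filter_upwards [eventually_gt_atTop (0 : ℝ)] with t ht
            simp only [Function.comp]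
            rw [mul_pow, mul_comm, inv_pow, ← div_eq_mul_inv,
              ENNReal.ofReal_div_of_pos (by positivity), ENNReal.ofReal_pow (norm_nonneg _),
              ofReal_norm]
          refine tendsto_of_tendsto_of_tendsto_of_le_of_le tendsto_const_nhds
            (tendsto_aux hfin h1) (fun t => bot_le) fun t => ?_
          refine ENNReal.div_le_div_right ?_ _
          rw [hUe]
          exact Pool.Agent.R988.NQ.mom_le (-1) _ _ (hev _) j (v j) (hv j) u t
        have hsum := tendsto_finsetSum (Finset.univ : Finset (Fin d)) (fun j _ => hterm j)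
        simp only [Finset.sum_const_zero] at hsum
        refine hsum.congr fun t => ?_
        rw [second_eq, ENNReal.div_eq_inv_mul, Finset.mul_sum]
        refine Finset.sum_congr rfl fun j _ => ?_
        rw [ENNReal.div_eq_inv_mul]
      refine ⟨fun i => ⟨fun u => v i u, fun u x => ?_, havg i⟩, fun u ε hε => ?_, hmom⟩
      · have := hv i u x
        rw [this]
        push_cast
        ring
      · have h1 := mass_tendsto (ev fun x => 2 * (d : ℝ) + 1 * ω x) (fun u hu => by
          refine (hmom u hu).congr fun t => ?_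
          rw [hUe]) u hε
        refine h1.congr fun t => ?_
        rw [hUe]
    · have h := ALL.a_MAIN d (-1) ev hev (μ.map fun r : ℝ => 2 * (d : ℝ) + 1 * r) C hC
      refine h.congr fun t => ?_
      congr 1
      have hmeas : Measurable (fun V : Site d → ℝ => ∑' x : Site d,
          ENNReal.ofReal (∑ i : Fin d, (x i : ℝ) ^ 2) * ‖((ev V).U t (dl 0)) x‖ₑ ^ 2) := by
        refine Measurable.tsum fun x => ?_
        refine Measurable.const_mul ?_ _
        refine Measurable.pow_const ?_ 2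
        have h1 : Continuous (fun V : Site d → ℝ => (ev V).U t (dl 0)) :=
          (ALL.a_CV d (-1) ev hev).comp
            (continuous_id.prodMk (continuous_const.prodMk continuous_const))
        have h2 : Continuous (fun f : Pool.Agent.H5R2.NB.L2 (Site d) => (f : Site d → ℂ) x) :=
          (continuous_apply x).comp (lp.uniformContinuous_coe).continuous
        exact (h2.comp h1).enorm.measurable
      rw [← hmap, lintegral_map hmeas hgm]
      refine lintegral_congr fun ω => ?_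
      show ∑' x : Site d, ENNReal.ofReal (∑ i : Fin d, (x i : ℝ) ^ 2) *
        ‖((ev fun x => 2 * (d : ℝ) + 1 * ω x).U t (dl 0)) x‖ₑ ^ 2 =
        secondMoment (U ω t (delta0 d))
      rw [hUe]
      rfl
  · intro c hc
    refine ⟨⟨?_⟩, ?_⟩
    · unfold uniform
      rw [Measure.smul_apply, Measure.restrict_apply_univ, Real.volume_Icc, smul_eq_mul,
        ← ENNReal.ofReal_mul (by positivity)]
      have : (2 * c)⁻¹ * (c - -c) = 1 := by
        field_simp
        ring
      rw [this, ENNReal.ofReal_one]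
    · refine ⟨Real.toNNReal (2 * c)⁻¹, ?_⟩
      unfold uniform
      rw [Measure.le_iff]
      intro s hs
      rw [Measure.smul_apply, Measure.smul_apply, smul_eq_mul]
      show _ ≤ ENNReal.ofReal (2 * c)⁻¹ * volume s
      gcongr
      exact Measure.restrict_le_self

end Pool.Agent.Results.MP_562b47_mp.NoBallisticTransport
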