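import Pool.Agent.N659.HB.AllS

set_option autoImplicit false

/-!
# The uniform Anderson model at strong disorder: localization is destroyed by arbitrarily small
# changes of the kinetic energy

`-Δ + ω` with `ω_j` independent and uniform on `[-c, c]` on `ℤ^d`. For every `θ < 1` there is
`c₀(d, θ)` such that for all `c ≥ c₀` (the strongly localized regime) and every `ε > 0` there is a
continuous `b` with `|b| ≤ ε` and hopping amplitudes at most `ε / (1 + |x|) ^ (d / 3)` such that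
`-Δ + b(-Δ) + ω` has almost surely purely absolutely continuous spectrum filling `(-θ c, θ c)`.
-/

namespace Pool.Agent.Results.MP_562b47_mp.StrongDisorderAC

open MeasureTheory
open scoped ENNReal

noncomputable section

/-- The hopping amplitudes of `b(-Δ)` on `ℤ^d`: the Fourier coefficients of the symbol
`b(∑ i (2 - 2 cos (2 π k_i)))`. -/
def hopping (b : ℝ → ℝ) (d : ℕ) (x : Fin d → ℤ) : ℂ :=
  UnitAddTorus.mFourierCoeff
    (fun k : UnitAddTorus (Fin d) => ((b (∑ i, (2 - 2 * (fourier 1 (k i)).re)) : ℝ) : ℂ)) x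

/-- `(-Δ + b(-Δ) + ω) u (x)`. -/
def H (b : ℝ → ℝ) {d : ℕ} (ω : (Fin d → ℤ) → ℝ) (u : (Fin d → ℤ) → ℂ)
    (x : Fin d → ℤ) : ℂ :=
  (∑ i : Fin d, (2 * u x - u (x + Pi.single i 1) - u (x - Pi.single i 1)))
    + (∑' y, hopping b d (x - y) * u y) + ((ω x : ℝ) : ℂ) * u x

/-- `u` is square summable and `(H - z) u = δ_x`, i.e. `u = (H - z)⁻¹ δ_x`. -/
def IsGreen (b : ℝ → ℝ) {d : ℕ} (ω : (Fin d → ℤ) → ℝ) (z : ℂ) (x : Fin d → ℤ)
    (u : (Fin d → ℤ) → ℂ) : Prop :=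
  Summable (fun y => ‖u y‖ ^ 2) ∧ ∀ y, H b ω u y - z * u y = if y = x then 1 else 0

/-- Purely absolutely continuous spectrum filling the interval `(a₁, a₂)`: for every site `x` the
spectral measure `μ` of `δ_x`, i.e. the finite measure with
`⟨δ_x, (H - z)⁻¹ δ_x⟩ = ∫ dμ(E) / (E - z)`, has on `(a₁, a₂)` a density `h`, positive almost
everywhere there. -/
def ACOn (b : ℝ → ℝ) {d : ℕ} (ω : (Fin d → ℤ) → ℝ) (a₁ a₂ : ℝ) : Prop :=
  ∀ x : Fin d → ℤ, ∃ (μ : Measure ℝ) (h : ℝ → ℝ), IsFiniteMeasure μ ∧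
    (∀ z : ℂ, 0 < z.im → (∃ u, IsGreen b ω z x u) ∧
      ∀ u, IsGreen b ω z x u → u x = ∫ E : ℝ, 1 / ((E : ℂ) - z) ∂μ) ∧
    Measurable h ∧ (∀ᵐ E ∂(volume.restrict (Set.Ioo a₁ a₂)), 0 < h E) ∧
    μ.restrict (Set.Ioo a₁ a₂)
      = (volume.restrict (Set.Ioo a₁ a₂)).withDensity fun E => ENNReal.ofReal (h E)

theorem ac_of {b : ℝ → ℝ} {d : ℕ} (B : C(UnitAddTorus (Fin d), ℝ))
    (hB : ∀ k, B k = b (W792.LL.lap d k)) {ω : (Fin d → ℤ) → ℝ} {a₁ a₂ : ℝ}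
    (h : W792.WA.ACIK (W792.LL.lap d + B) 1 ω a₁ a₂) : ACOn b ω a₁ a₂ := by
  intro x
  obtain ⟨μ, g, h1, h2, h3, h4, h5⟩ := h x
  have e0 : (fun k : UnitAddTorus (Fin d) => ((B k : ℝ) : ℂ))
      = fun k => ((b (∑ i, (2 - 2 * (fourier 1 (k i)).re)) : ℝ) : ℂ) := by
    funext k
    rw [hB]
    rfl
  refine ⟨μ, g, h1, fun z hz => ?_, h3, h4, h5⟩
  have e : ∀ u, W792.LL.Sol (W792.LL.hopK (W792.LL.lap d + B)) 1 ω z x u
      ↔ IsGreen b ω z x u := by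
    intro u
    rw [W792.WA.Br.sol_iff B 1 ω z x u, e0]
    unfold IsGreen H hopping
    simp only [one_mul]
  obtain ⟨⟨w, hw⟩, h6⟩ := h2 z hz
  exact ⟨⟨w, (e w).1 hw⟩, fun u hu => h6 u ((e u).2 hu)⟩

/-- The uniform law on `[-c, c]`. -/
def unifLaw (c : ℝ) : Measure ℝ :=
  ENNReal.ofReal (1 / (2 * c)) • volume.restrict (Set.Icc (-c) c)

theorem unif_prob {c : ℝ} (hc : 0 < c) : IsProbabilityMeasure (unifLaw c) := by
  refine ⟨?_⟩
  unfold unifLaw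
  rw [Measure.smul_apply, Measure.restrict_apply_univ, Real.volume_Icc, smul_eq_mul,
    ← ENNReal.ofReal_mul (by positivity)]
  have : 1 / (2 * c) * (c - -c) = 1 := by field_simp; ring
  rw [this, ENNReal.ofReal_one]

/-- Let `d ≥ 1` and `0 < θ < 1`. There is `c₀` such that for all `c ≥ c₀` and all `ε > 0` there is a
continuous `b` with `|b| ≤ ε` and hopping amplitudes at most `ε / (1 + |x|) ^ (d / 3)`,
`|x| = max |x_i|`, for which the spectrum of `-Δ + b(-Δ) + ω`, `ω_j` independent and uniform on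
`[-c, c]`, in `(-θ c, θ c)` is almost surely purely absolutely continuous, and it fills this
interval. -/
theorem result (d : ℕ) (hd : 0 < d) (θ : ℝ) (hθ0 : 0 < θ) (hθ1 : θ < 1) :
    ∃ c₀ : ℝ, 0 < c₀ ∧ ∀ c : ℝ, c₀ ≤ c → ∀ ε : ℝ, 0 < ε → ∃ b : ℝ → ℝ, Continuous b ∧
      (∀ t, |b t| ≤ ε) ∧
      (∀ x : Fin d → ℤ, ‖hopping b d x‖ ≤ ε / (1 + ‖x‖) ^ ((d : ℝ) / 3)) ∧
      ∀ᵐ ω ∂(Measure.infinitePi fun _ : Fin d → ℤ => unifLaw c),
        ACOn b ω (-(θ * c)) (θ * c) := by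
  obtain ⟨c₀, hc₀, h⟩ := N659.HB.Al.sdT d θ hd hθ0 hθ1
  refine ⟨c₀, hc₀, fun c hc ε hε => ?_⟩
  have hc1 : 0 < c := lt_of_lt_of_le hc₀ hc
  have hP : IsProbabilityMeasure (N659.HB.unif c) := unif_prob hc1
  obtain ⟨b, hb1, hb2, hb3⟩ := h c ε hc hε
  refine ⟨b, b.continuous, hb1, hb2, ?_⟩
  change ∀ᵐ ω ∂(W792.WA.Pn (N659.HB.unif c) (Fin d → ℤ)), _
  filter_upwards [hb3] with v hv
  exact ac_of (W792.WA.gK b d) (fun k => rfl) hv

end

end Pool.Agent.Results.MP_562b47_mp.StrongDisorderAC
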